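import Pool.Agent.H10.PS.Targets

set_option autoImplicit false

/-!
# MP_b95bd9_al, module INT, part 2: the statistics of finite `F/N`-sets, separation
-/

open MeasureTheory Filter Topology

namespace Pool.Agent.H10.PS

section stat

variable {r : ℕ}

open Classical in
/-- indicator of a proposition -/
noncomputable def ind01 (p : Prop) : ℝ := if p then 1 else 0

lemma ind01_congr {p q : Prop} (h : p ↔ q) : ind01 p = ind01 q := by
  rw [propext h]

lemma ind01_nonneg (p : Prop) : 0 ≤ ind01 p := by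
  unfold ind01
  split_ifs <;> norm_num

lemma ind01_le_one (p : Prop) : ind01 p ≤ 1 := by
  unfold ind01
  split_ifs <;> norm_num

lemma freq_eq {Ω : Type} [Fintype Ω] (σ : FG r →* Equiv.Perm Ω) (D P : Finset (FG r)) :
    freq σ D P = (∑ ω, ind01 (∀ w ∈ D, (σ w ω = ω ↔ w ∈ P))) / Fintype.card Ω := by
  classical
  unfold freq ind01
  rw [Nat.card_eq_fintype_card, Nat.card_eq_fintype_card, Fintype.card_subtype,
    Finset.card_filter]
  push_cast
  congr 1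
  refine Finset.sum_congr rfl fun x _ => ?_
  congr

/-- `a` copies of `Y₁` and `b` copies of `Y₂` -/
def combHom {Y₁ Y₂ A B : Type} (τ₁ : FG r →* Equiv.Perm Y₁) (τ₂ : FG r →* Equiv.Perm Y₂) :
    FG r →* Equiv.Perm ((A × Y₁) ⊕ (B × Y₂)) where
  toFun w := Equiv.sumCongr (Equiv.prodCongr (Equiv.refl A) (τ₁ w))
    (Equiv.prodCongr (Equiv.refl B) (τ₂ w))
  map_one' := by
    ext x
    rcases x with ⟨i, y⟩ | ⟨i, y⟩ <;> simp
  map_mul' w w' := by
    ext x
    rcases x with ⟨i, y⟩ | ⟨i, y⟩ <;> simp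

/-- The set of the statistics of finite `F/N`-sets. -/
def statS (N : Subgroup (FG r)) (D : Finset (FG r)) : Set ({P // P ∈ D.powerset} → ℝ) :=
  {v | ∃ (Y : Type) (_ : Fintype Y) (_ : Nonempty Y) (τ : FG r →* Equiv.Perm Y),
    N ≤ τ.ker ∧ ∀ P, v P = freq τ D P}

lemma statS_comb (N : Subgroup (FG r)) (D : Finset (FG r)) {x y : {P // P ∈ D.powerset} → ℝ}
    (hx : x ∈ statS N D) (hy : y ∈ statS N D) (a b : ℕ) (hab : 0 < a + b) :
    ((a : ℝ) / (a + b)) • x + ((b : ℝ) / (a + b)) • y ∈ statS N D := by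
  classical
  obtain ⟨Y₁, _, _, τ₁, h1, hx⟩ := hx
  obtain ⟨Y₂, _, _, τ₂, h2, hy⟩ := hy
  have hc1 : 0 < Fintype.card Y₁ := Fintype.card_pos
  have hc2 : 0 < Fintype.card Y₂ := Fintype.card_pos
  have hne : Nonempty ((Fin (a * Fintype.card Y₂) × Y₁) ⊕ (Fin (b * Fintype.card Y₁) × Y₂)) := by
    rcases Nat.eq_zero_or_pos a with ha | ha
    · have hb : 0 < b := by omega
      exact ⟨Sum.inr (⟨0, Nat.mul_pos hb hc1⟩, Classical.arbitrary Y₂)⟩
    · exact ⟨Sum.inl (⟨0, Nat.mul_pos ha hc2⟩, Classical.arbitrary Y₁)⟩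
  refine ⟨(Fin (a * Fintype.card Y₂) × Y₁) ⊕ (Fin (b * Fintype.card Y₁) × Y₂), inferInstance,
    hne, combHom τ₁ τ₂, ?_, fun P => ?_⟩
  · intro w hw
    have h3 : τ₁ w = 1 := h1 hw
    have h4 : τ₂ w = 1 := h2 hw
    show combHom τ₁ τ₂ w = 1
    ext x
    rcases x with ⟨i, y⟩ | ⟨i, y⟩ <;> simp [combHom, h3, h4]
  · simp only [Pi.add_apply, Pi.smul_apply, smul_eq_mul]
    rw [hx P, hy P, freq_eq, freq_eq, freq_eq, Fintype.sum_sum_type, Fintype.sum_prod_type,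
      Fintype.sum_prod_type]
    have e1 : ∀ (i : Fin (a * Fintype.card Y₂)) (y : Y₁),
        ind01 (∀ w ∈ D, (combHom (A := Fin (a * Fintype.card Y₂)) (B := Fin (b * Fintype.card Y₁))
            τ₁ τ₂ w (Sum.inl (i, y)) = Sum.inl (i, y) ↔ w ∈ (P : Finset (FG r)))) =
        ind01 (∀ w ∈ D, (τ₁ w y = y ↔ w ∈ (P : Finset (FG r)))) := by
      intro i y
      apply ind01_congr
      simp [combHom]
    have e2 : ∀ (i : Fin (b * Fintype.card Y₁)) (y : Y₂),
        ind01 (∀ w ∈ D, (combHom (A := Fin (a * Fintype.card Y₂)) (B := Fin (b * Fintype.card Y₁))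
            τ₁ τ₂ w (Sum.inr (i, y)) = Sum.inr (i, y) ↔ w ∈ (P : Finset (FG r)))) =
        ind01 (∀ w ∈ D, (τ₂ w y = y ↔ w ∈ (P : Finset (FG r)))) := by
      intro i y
      apply ind01_congr
      simp [combHom]
    simp only [e1, e2]
    rw [Finset.sum_const, Finset.sum_const, Finset.card_univ, Finset.card_univ, Fintype.card_fin,
      Fintype.card_fin, Fintype.card_sum, Fintype.card_prod, Fintype.card_prod, Fintype.card_fin,
      Fintype.card_fin]
    set s₁ := ∑ y : Y₁, ind01 (∀ w ∈ D, (τ₁ w y = y ↔ w ∈ (P : Finset (FG r))))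
    set s₂ := ∑ y : Y₂, ind01 (∀ w ∈ D, (τ₂ w y = y ↔ w ∈ (P : Finset (FG r))))
    have hc1' : (Fintype.card Y₁ : ℝ) ≠ 0 := by exact_mod_cast hc1.ne'
    have hc2' : (Fintype.card Y₂ : ℝ) ≠ 0 := by exact_mod_cast hc2.ne'
    have hab' : ((a : ℝ) + b) ≠ 0 := by exact_mod_cast hab.ne'
    simp only [nsmul_eq_mul]
    push_cast
    have hden : (a : ℝ) * Fintype.card Y₂ * Fintype.card Y₁ +
        b * Fintype.card Y₁ * Fintype.card Y₂ ≠ 0 := by
      have : (a : ℝ) * Fintype.card Y₂ * Fintype.card Y₁ +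
        b * Fintype.card Y₁ * Fintype.card Y₂ =
          (a + b) * (Fintype.card Y₁ * Fintype.card Y₂) := by ring
      rw [this]
      exact mul_ne_zero hab' (mul_ne_zero hc1' hc2')
    field_simp

lemma statS_seg (N : Subgroup (FG r)) (D : Finset (FG r)) {x y : {P // P ∈ D.powerset} → ℝ}
    (hx : x ∈ statS N D) (hy : y ∈ statS N D) (a b : ℝ) (ha : 0 ≤ a) (hb : 0 ≤ b)
    (hab : a + b = 1) : a • x + b • y ∈ closure (statS N D) := by
  have h1 : Tendsto (fun n : ℕ => ((⌊a * (n : ℝ)⌋₊ : ℝ) / (n : ℝ))) atTop (𝓝 a) :=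
    (tendsto_nat_floor_mul_div_atTop ha).comp tendsto_natCast_atTop_atTop
  have h2 : Tendsto (fun n : ℕ => ((⌊a * (n : ℝ)⌋₊ : ℝ) / (n : ℝ)) • x +
      (1 - ((⌊a * (n : ℝ)⌋₊ : ℝ) / (n : ℝ))) • y) atTop (𝓝 (a • x + (1 - a) • y)) :=
    (h1.smul_const x).add ((tendsto_const_nhds.sub h1).smul_const y)
  have hb' : b = 1 - a := by linarith
  rw [hb']
  refine mem_closure_of_tendsto h2 ?_
  filter_upwards [eventually_ge_atTop 1] with n hn
  have hn' : (0 : ℝ) < n := by exact_mod_cast hn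
  have hle : ⌊a * (n : ℝ)⌋₊ ≤ n := by
    apply Nat.floor_le_of_le
    nlinarith
  have h3 := statS_comb N D hx hy ⌊a * (n : ℝ)⌋₊ (n - ⌊a * (n : ℝ)⌋₊) (by omega)
  have h4 : (((n - ⌊a * (n : ℝ)⌋₊ : ℕ) : ℝ)) = n - (⌊a * (n : ℝ)⌋₊ : ℝ) := by
    rw [Nat.cast_sub hle]
  rw [h4] at h3
  have h5 : (⌊a * (n : ℝ)⌋₊ : ℝ) + (n - (⌊a * (n : ℝ)⌋₊ : ℝ)) = n := by ring
  rw [h5] at h3
  have h6 : ((n : ℝ) - (⌊a * (n : ℝ)⌋₊ : ℝ)) / n = 1 - (⌊a * (n : ℝ)⌋₊ : ℝ) / n := by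
    field_simp
  rw [h6] at h3
  exact h3

lemma statS_convex (N : Subgroup (FG r)) (D : Finset (FG r)) :
    Convex ℝ (closure (statS N D)) := by
  intro x hx y hy a b ha hb hab
  have h1 : Continuous (Function.uncurry
      (fun u v : {P // P ∈ D.powerset} → ℝ => a • u + b • v)) := by
    unfold Function.uncurry
    fun_prop
  have := map_mem_closure₂ (u := closure (statS N D)) h1 hx hy
    (fun u hu v hv => statS_seg N D hu hv a b ha hb hab)
  rwa [closure_closure] at this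

/-- Separation. -/
lemma exists_sep (N : Subgroup (FG r)) (D : Finset (FG r)) (μ : Measure (XX r)) (δ : ℝ)
    (hδ : 0 < δ)
    (hno : ¬ ∃ (Y : Type) (_ : Fintype Y) (_ : Nonempty Y) (τ : FG r →* Equiv.Perm Y),
      N ≤ τ.ker ∧ ∀ P ∈ D.powerset, |freq τ D P - μ.real (cyl D P)| ≤ δ) :
    ∃ (φ : {P // P ∈ D.powerset} → ℝ) (u : ℝ),
      (∀ (Y : Type) (_ : Fintype Y) (_ : Nonempty Y) (τ : FG r →* Equiv.Perm Y), N ≤ τ.ker →
        ∑ P, φ P * freq τ D P ≤ u) ∧ u < ∑ P, φ P * μ.real (cyl D P) := by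
  classical
  set x₀ : {P // P ∈ D.powerset} → ℝ := fun P => μ.real (cyl D P) with hx₀
  have h1 : x₀ ∉ closure (statS N D) := by
    intro h
    rw [Metric.mem_closure_iff] at h
    obtain ⟨v, ⟨Y, i1, i2, τ, hτ, hv⟩, hd⟩ := h δ hδ
    apply hno
    refine ⟨Y, i1, i2, τ, hτ, fun P hP => ?_⟩
    have h2 := (dist_pi_lt_iff hδ).1 hd ⟨P, hP⟩
    rw [Real.dist_eq, hv, abs_sub_comm] at h2
    exact h2.le
  obtain ⟨f, u, hf1, hf2⟩ := geometric_hahn_banach_closed_point (statS_convex N D)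
    isClosed_closure h1
  have hf : ∀ v : {P // P ∈ D.powerset} → ℝ,
      f v = ∑ P, f (Pi.single P 1) * v P := by
    intro v
    have h2 : v = ∑ P, v P • (Pi.single P (1 : ℝ) : {P // P ∈ D.powerset} → ℝ) := by
      funext Q
      simp [Finset.sum_apply, Pi.single_apply]
    conv_lhs => rw [h2]
    rw [map_sum]
    refine Finset.sum_congr rfl fun P _ => ?_
    rw [map_smul, smul_eq_mul, mul_comm]
  refine ⟨fun P => f (Pi.single P 1), u, ?_, ?_⟩
  · intro Y i1 i2 τ hτ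
    have h2 := hf1 (fun P => freq τ D P) (subset_closure ⟨Y, i1, i2, τ, hτ, fun P => rfl⟩)
    rw [hf] at h2
    exact h2.le
  · rw [hf] at hf2
    exact hf2

end stat

end Pool.Agent.H10.PS
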