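import Pool.Agent.H90.PS.INT1
import Pool.Agent.H90.PS.INT2

set_option autoImplicit false

/-!
# MP_b95bd9_al, module INT: every invariant random subgroup of `F/N` is co-sofic
-/

open MeasureTheory Filter Topology
open scoped commutatorElement

namespace Pool.Agent.H10.PS

section int

variable {r : ℕ}

/-- the function of the pattern on `D` -/
noncomputable def Phi (D : Finset (FG r)) (φ : {P // P ∈ D.powerset} → ℝ) (x : XX r) : ℝ :=
  ∑ P, φ P * ind01 (x ∈ cyl D P)

lemma Phi_abs_le (D : Finset (FG r)) (φ : {P // P ∈ D.powerset} → ℝ) (x : XX r) :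
    |Phi D φ x| ≤ ∑ P, |φ P| := by
  unfold Phi
  refine (Finset.abs_sum_le_sum_abs _ _).trans (Finset.sum_le_sum fun P _ => ?_)
  rw [abs_mul, abs_of_nonneg (ind01_nonneg _)]
  exact mul_le_of_le_one_right (abs_nonneg _) (ind01_le_one _)

lemma Phi_congr (D : Finset (FG r)) (φ : {P // P ∈ D.powerset} → ℝ) {x x' : XX r}
    (h : ∀ w ∈ D, (x w = true ↔ x' w = true)) : Phi D φ x = Phi D φ x' := by
  unfold Phi
  refine Finset.sum_congr rfl fun P _ => ?_
  congr 1
  apply ind01_congr
  unfold cyl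
  constructor
  · intro hx w hw
    rw [← h w hw]
    exact hx w hw
  · intro hx w hw
    rw [h w hw]
    exact hx w hw

lemma measurable_ind01 {X : Type} [MeasurableSpace X] {s : Set X} (hs : MeasurableSet s) :
    Measurable (fun x => ind01 (x ∈ s)) := by
  classical
  unfold ind01
  exact Measurable.ite hs measurable_const measurable_const

lemma measurable_Phi (D : Finset (FG r)) (φ : {P // P ∈ D.powerset} → ℝ) :
    Measurable (Phi D φ) := by
  unfold Phi
  refine Finset.measurable_fun_sum _ fun P _ => ?_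
  exact (measurable_ind01 (measurableSet_cyl D P)).const_mul _

/-- the point of `XX r` given by a point of a finite `F`-set -/
noncomputable def ptX {Y : Type} (τ : FG r →* Equiv.Perm Y) (y : Y) : XX r := by
  classical
  exact fun w => decide (τ w y = y)

lemma ptX_iff {Y : Type} (τ : FG r →* Equiv.Perm Y) (y : Y) (w : FG r) :
    ptX τ y w = true ↔ τ w y = y := by
  unfold ptX
  simp

lemma sum_Phi {Y : Type} [Fintype Y] [Nonempty Y] (τ : FG r →* Equiv.Perm Y) (D : Finset (FG r))
    (φ : {P // P ∈ D.powerset} → ℝ) :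
    ∑ y, Phi D φ (ptX τ y) = Fintype.card Y * ∑ P, φ P * freq τ D P := by
  have hc : (Fintype.card Y : ℝ) ≠ 0 := by exact_mod_cast Fintype.card_pos.ne'
  unfold Phi
  rw [Finset.sum_comm, Finset.mul_sum]
  refine Finset.sum_congr rfl fun P _ => ?_
  rw [← Finset.mul_sum, freq_eq]
  have : ∑ y, ind01 (ptX τ y ∈ cyl D P) =
      ∑ y, ind01 (∀ w ∈ D, (τ w y = y ↔ w ∈ (P : Finset (FG r)))) := by
    refine Finset.sum_congr rfl fun y _ => ?_
    apply ind01_congr
    unfold cyl
    simp only [Set.mem_ofPred_eq, ptX_iff]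
  rw [this]
  field_simp

lemma pointwise (h3 : T_LOC) (m : ℕ) (R : Subgroup (FG r)) (hR : R.Normal)
    (hc : commutator (FG r) ≤ R) (D : Finset (FG r)) (φ : {P // P ∈ D.powerset} → ℝ) (u : ℝ)
    (hφ : ∀ (Y : Type) (_ : Fintype Y) (_ : Nonempty Y) (τ : FG r →* Equiv.Perm Y),
      NN R m ≤ τ.ker → ∑ P, φ P * freq τ D P ≤ u)
    (H F₀ : Subgroup (FG r)) (hH : NN R m ≤ H) (hF : H ⊔ R = F₀) (x : XX r)
    (hx : ∀ w, x w = true ↔ w ∈ H) (S : Finset (XX r)) (hS : ∀ y, y ∈ S ↔ ∃ a ∈ R, y = conjX a x)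
    (V : Type) [Fintype V] [Nonempty V] (t : Tile R F₀ V) (ε : ℝ)
    (hε : (Nat.card {v : V // ∃ w ∈ D, t.h w v ≠ (t.g (t.p w v))⁻¹ * w * t.g v} : ℝ) ≤
        ε * Nat.card V) :
    ∑ v : V, ∑ z ∈ S, Phi D φ (conjX (t.g v) z) ≤
      (u + 2 * (∑ P, |φ P|) * ε) * (Fintype.card V * S.card) := by
  classical
  subst hF
  set C := ∑ P, |φ P| with hC
  have hC0 : 0 ≤ C := Finset.sum_nonneg fun P _ => abs_nonneg _
  have hex : ∀ o : S, ∃ K : Subgroup (FG r), ∀ w, (o : XX r) w = true ↔ w ∈ K := by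
    intro o
    obtain ⟨a, ha, hao⟩ := (hS o).1 o.2
    refine ⟨Subgroup.comap (MulAut.conj a⁻¹).toMonoidHom H, fun w => ?_⟩
    rw [hao, Subgroup.mem_comap]
    unfold conjX
    rw [hx]
    simp
  choose c hcc using hex
  have hinj : Function.Injective c := by
    intro o o' h
    apply Subtype.ext
    funext w
    rw [Bool.eq_iff_iff, hcc, hcc, h]
  have hK : ∀ K : Subgroup (FG r), (∃ o, K = c o) ↔ ∃ a ∈ R, ∀ w, w ∈ K ↔ a⁻¹ * w * a ∈ H := by
    intro K
    constructor
    · rintro ⟨o, rfl⟩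
      obtain ⟨a, ha, hao⟩ := (hS o).1 o.2
      refine ⟨a, ha, fun w => ?_⟩
      rw [← hcc, hao]
      unfold conjX
      rw [hx]
    · rintro ⟨a, ha, haK⟩
      refine ⟨⟨conjX a x, (hS _).2 ⟨a, ha, rfl⟩⟩, ?_⟩
      ext w
      rw [haK, ← hcc]
      show _ ↔ conjX a x w = true
      unfold conjX
      rw [hx]
  obtain ⟨Y, i1, i2, τ, π, k, hker, hk, hfib, hloc⟩ :=
    h3 r m R hR hc H hH S c hinj hK V t D
  -- the total sum
  have h1 : ∑ y, Phi D φ (ptX τ y) ≤ u * Fintype.card Y := by
    rw [sum_Phi, mul_comm]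
    exact mul_le_mul_of_nonneg_right (hφ Y i1 i2 τ hker) (Nat.cast_nonneg _)
  have hfib' : ∀ q : V × S, (Finset.univ.filter fun y => π y = q).card = k := by
    intro q
    rw [← hfib q, Nat.card_eq_fintype_card, Fintype.card_subtype]
  have hcardY : Fintype.card Y = k * (Fintype.card V * S.card) := by
    have h2 := Finset.card_eq_sum_card_fiberwise (f := π) (s := (Finset.univ : Finset Y))
      (t := Finset.univ) (fun _ _ => Finset.mem_coe.2 (Finset.mem_univ _))
    rw [Finset.card_univ] at h2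
    rw [h2, Finset.sum_congr rfl fun q _ => hfib' q, Finset.sum_const, Finset.card_univ,
      Fintype.card_prod, Fintype.card_coe, smul_eq_mul, mul_comm]
  -- fibrewise
  set bad : V → Prop := fun v => ∃ w ∈ D, t.h w v ≠ (t.g (t.p w v))⁻¹ * w * t.g v with hbad
  have h4 : ∀ q : V × S, (k : ℝ) * (Phi D φ (conjX (t.g q.1) (q.2 : XX r)) -
      2 * C * ind01 (bad q.1)) ≤ ∑ y ∈ Finset.univ.filter (fun y => π y = q), Phi D φ (ptX τ y) := by
    intro q
    rw [← hfib' q, ← nsmul_eq_mul]
    apply Finset.card_nsmul_le_sum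
    intro y hy
    have hy' : π y = q := (Finset.mem_filter.1 hy).2
    by_cases hb : bad q.1
    · have : ind01 (bad q.1) = 1 := by
        unfold ind01
        rw [if_pos hb]
      rw [this]
      have h5 := (abs_le.1 (Phi_abs_le D φ (ptX τ y))).1
      have h6 := (abs_le.1 (Phi_abs_le D φ (conjX (t.g q.1) (q.2 : XX r)))).2
      rw [← hC] at h5 h6
      linarith
    · have : ind01 (bad q.1) = 0 := by
        unfold ind01
        rw [if_neg hb]
      rw [this]
      have h5 : Phi D φ (conjX (t.g q.1) (q.2 : XX r)) = Phi D φ (ptX τ y) := by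
        apply Phi_congr
        intro w hw
        rw [ptX_iff]
        have h6 : t.h w q.1 = (t.g (t.p w q.1))⁻¹ * w * t.g q.1 := by
          by_contra hne
          exact hb ⟨w, hw, hne⟩
        have h7 := hloc y w hw
        rw [hy'] at h7
        rw [h7 h6, ← hcc]
        rfl
      rw [h5]
      simp
  have h5 : ∑ q : V × S, (k : ℝ) * (Phi D φ (conjX (t.g q.1) (q.2 : XX r)) -
      2 * C * ind01 (bad q.1)) ≤ ∑ y, Phi D φ (ptX τ y) := by
    have h6 := Finset.sum_fiberwise (Finset.univ : Finset Y) π (fun y => Phi D φ (ptX τ y))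
    rw [← h6]
    exact Finset.sum_le_sum fun q _ => h4 q
  have h6 : ∑ q : V × S, (k : ℝ) * (Phi D φ (conjX (t.g q.1) (q.2 : XX r)) -
      2 * C * ind01 (bad q.1)) = k * (∑ v : V, ∑ z ∈ S, Phi D φ (conjX (t.g v) z)) -
        k * (2 * C * (S.card * ∑ v : V, ind01 (bad v))) := by
    rw [← Finset.mul_sum, Finset.sum_sub_distrib, mul_sub]
    congr 1
    · congr 1
      rw [Fintype.sum_prod_type]
      refine Finset.sum_congr rfl fun v _ => ?_
      exact Finset.sum_coe_sort S (fun z => Phi D φ (conjX (t.g v) z))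
    · rw [← Finset.mul_sum, Fintype.sum_prod_type_right]
      simp [Finset.sum_const]
  have h7 : ∑ v : V, ind01 (bad v) ≤ ε * Fintype.card V := by
    have h8 : (Nat.card {v : V // bad v} : ℝ) = ∑ v : V, ind01 (bad v) := by
      rw [Nat.card_eq_fintype_card, Fintype.card_subtype, Finset.card_filter]
      push_cast
      refine Finset.sum_congr rfl fun v _ => ?_
      unfold ind01
      congr
    rw [← h8, ← Nat.card_eq_fintype_card (α := V)]
    exact hε
  have hk' : (0 : ℝ) < k := by exact_mod_cast hk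
  rw [h6] at h5
  have h9 := h5.trans h1
  rw [hcardY] at h9
  push_cast at h9
  have h10 : (k : ℝ) * (∑ v : V, ∑ z ∈ S, Phi D φ (conjX (t.g v) z)) ≤
      k * ((u + 2 * C * ε) * (Fintype.card V * S.card)) := by
    have h11 : (S.card : ℝ) * ∑ v : V, ind01 (bad v) ≤ S.card * (ε * Fintype.card V) :=
      mul_le_mul_of_nonneg_left h7 (Nat.cast_nonneg _)
    have h12 : 2 * C * ((S.card : ℝ) * ∑ v : V, ind01 (bad v)) ≤
        2 * C * (S.card * (ε * Fintype.card V)) :=
      mul_le_mul_of_nonneg_left h11 (by positivity)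
    have h13 := mul_le_mul_of_nonneg_left h12 hk'.le
    nlinarith
  exact le_of_mul_le_mul_left h10 hk'

/-- limit argument -/
lemma le_of_eventually {X : Type} [MeasurableSpace X] (μ : Measure X) [IsProbabilityMeasure μ]
    (S : Set X) (hS : MeasurableSet S) (Ψ : ℕ → X → ℝ) (hm : ∀ k, Measurable (Ψ k)) (C : ℝ)
    (hC : ∀ k x, |Ψ k x| ≤ C) (I : ℝ) (hI : ∀ k, ∫ x in S, Ψ k x ∂μ = I) (c' : ℝ)
    (hev : ∀ᵐ x ∂μ, x ∈ S → ∃ k₀, ∀ k, k₀ ≤ k → Ψ k x ≤ c') : I ≤ c' * μ.real S := by
  have hint : ∀ k, Integrable (Ψ k) (μ.restrict S) := fun k =>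
    Integrable.of_bound (hm k).aestronglyMeasurable C
      (ae_of_all _ fun x => by rw [Real.norm_eq_abs]; exact hC k x)
  have hmF : ∀ k, Measurable (fun x => max (Ψ k x - c') 0) := fun k =>
    ((hm k).sub_const c').max measurable_const
  have hbF : ∀ k x, ‖max (Ψ k x - c') 0‖ ≤ C + |c'| := by
    intro k x
    rw [Real.norm_eq_abs, abs_of_nonneg (le_max_right _ _)]
    have h1 := hC k x
    have h2 := abs_le.1 h1
    have h3 := neg_abs_le c'
    have h4 : 0 ≤ C := (abs_nonneg _).trans h1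
    exact max_le (by linarith) (by positivity)
  have hlim : Tendsto (fun k => ∫ x in S, max (Ψ k x - c') 0 ∂μ) atTop (𝓝 (∫ x in S, (0 : ℝ) ∂μ)) := by
    refine tendsto_integral_of_dominated_convergence (fun _ => C + |c'|)
      (fun k => (hmF k).aestronglyMeasurable) (integrable_const _)
      (fun k => ae_of_all _ fun x => hbF k x) ?_
    rw [ae_restrict_iff' hS]
    filter_upwards [hev] with x hx hxS
    obtain ⟨k₀, hk₀⟩ := hx hxS
    refine tendsto_const_nhds.congr' ?_
    filter_upwards [eventually_ge_atTop k₀] with k hk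
    rw [max_eq_right]
    have := hk₀ k hk
    linarith
  rw [integral_zero] at hlim
  have h1 : ∀ k, I - c' * μ.real S ≤ ∫ x in S, max (Ψ k x - c') 0 ∂μ := by
    intro k
    have h2 : ∫ x in S, (Ψ k x - c') ∂μ = I - c' * μ.real S := by
      rw [integral_sub (hint k) (integrable_const _), hI k, integral_const]
      simp [Measure.real, mul_comm]
    rw [← h2]
    refine integral_mono ((hint k).sub (integrable_const _)) ?_ (fun x => le_max_left _ _)
    exact Integrable.of_bound (hmF k).aestronglyMeasurable (C + |c'|)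
      (ae_of_all _ fun x => hbF k x)
  have h2 := ge_of_tendsto' hlim h1
  linarith

lemma setIntegral_conj (μ : Measure (XX r)) (hinv : ∀ g : FG r, μ.map (conjX g) = μ)
    (S : Set (XX r)) (hS : MeasurableSet S) (g : FG r) (hg : conjX g ⁻¹' S = S)
    (f : XX r → ℝ) (hf : Measurable f) :
    ∫ x in S, f (conjX g x) ∂μ = ∫ x in S, f x ∂μ := by
  have h1 := setIntegral_map (μ := μ) (g := conjX g) (f := f) hS
    (by rw [hinv g]; exact hf.aestronglyMeasurable) (measurable_conjX g).aemeasurable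
  rw [hinv g, hg] at h1
  exact h1.symm

/-- The main estimate on one piece. -/
lemma piece (h1 : T_FI) (h2 : T_TILE) (h3 : T_LOC) (h4 : T_EQD) (m : ℕ) (R : Subgroup (FG r))
    (hR : R.Normal) (hc : commutator (FG r) ≤ R) (μ : Measure (XX r)) (hμ : IsIRS (NN R m) μ)
    (D : Finset (FG r)) (φ : {P // P ∈ D.powerset} → ℝ) (u : ℝ)
    (hφ : ∀ (Y : Type) (_ : Fintype Y) (_ : Nonempty Y) (τ : FG r →* Equiv.Perm Y),
      NN R m ≤ τ.ker → ∑ P, φ P * freq τ D P ≤ u) (F₀ : Subgroup (FG r)) (hF₀ : R ≤ F₀)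
    (ε : ℝ) (hε : 0 < ε) :
    ∫ x in XF R F₀, Phi D φ x ∂μ ≤ (u + 2 * (∑ P, |φ P|) * ε) * μ.real (XF R F₀) := by
  classical
  have := hμ.prob
  have hF₀n : F₀.Normal := normal_of_commutator_le F₀ (hc.trans hF₀)
  obtain ⟨V, iV1, iV2, t, ht⟩ := h2 r R F₀ hR hc hF₀ D ε hε
  let _ := conjAct R
  obtain ⟨K, a, hKpos, ha⟩ := h4 R
  have hVpos : (0 : ℝ) < Fintype.card V := by exact_mod_cast Fintype.card_pos
  have hKpos' : ∀ k, (0 : ℝ) < K k := fun k => by exact_mod_cast hKpos k
  set Ψ : ℕ → XX r → ℝ := fun k x =>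
    (∑ v : V, (∑ i : Fin (K k), Phi D φ (conjX (t.g v) (conjX (a k i : FG r) x))) / K k) /
      Fintype.card V with hΨ
  have hmPhi := measurable_Phi D φ
  have hmterm : ∀ k v (i : Fin (K k)),
      Measurable (fun x => Phi D φ (conjX (t.g v) (conjX (a k i : FG r) x))) := fun k v i =>
    hmPhi.comp ((measurable_conjX _).comp (measurable_conjX _))
  have hmΨ : ∀ k, Measurable (Ψ k) := by
    intro k
    refine Measurable.div_const ?_ _
    refine Finset.measurable_fun_sum _ fun v _ => ?_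
    refine Measurable.div_const ?_ _
    exact Finset.measurable_fun_sum _ fun i _ => hmterm k v i
  have hbΨ : ∀ k x, |Ψ k x| ≤ ∑ P, |φ P| := by
    intro k x
    have hb1 : ∀ v : V, |(∑ i : Fin (K k), Phi D φ (conjX (t.g v) (conjX (a k i : FG r) x))) /
        K k| ≤ ∑ P, |φ P| := by
      intro v
      rw [abs_div, abs_of_pos (hKpos' k), div_le_iff₀ (hKpos' k)]
      refine (Finset.abs_sum_le_sum_abs _ _).trans ?_
      refine (Finset.sum_le_sum fun i _ => Phi_abs_le D φ _).trans ?_
      rw [Finset.sum_const, Finset.card_univ, Fintype.card_fin, nsmul_eq_mul, mul_comm]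
    show |(∑ v : V, (∑ i : Fin (K k), Phi D φ (conjX (t.g v) (conjX (a k i : FG r) x))) / K k) /
      Fintype.card V| ≤ _
    rw [abs_div, abs_of_pos hVpos, div_le_iff₀ hVpos]
    refine (Finset.abs_sum_le_sum_abs _ _).trans ?_
    refine (Finset.sum_le_sum fun v _ => hb1 v).trans ?_
    rw [Finset.sum_const, Finset.card_univ, nsmul_eq_mul, mul_comm]
  have hIΨ : ∀ k, ∫ x in XF R F₀, Ψ k x ∂μ = ∫ x in XF R F₀, Phi D φ x ∂μ := by
    intro k
    have hint : ∀ v (i : Fin (K k)),
        Integrable (fun x => Phi D φ (conjX (t.g v) (conjX (a k i : FG r) x)))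
          (μ.restrict (XF R F₀)) := fun v i =>
      Integrable.of_bound (hmterm k v i).aestronglyMeasurable (∑ P, |φ P|)
        (ae_of_all _ fun x => by rw [Real.norm_eq_abs]; exact Phi_abs_le D φ _)
    have hval : ∀ v (i : Fin (K k)),
        ∫ x in XF R F₀, Phi D φ (conjX (t.g v) (conjX (a k i : FG r) x)) ∂μ =
          ∫ x in XF R F₀, Phi D φ x ∂μ := by
      intro v i
      have e1 := setIntegral_conj μ hμ.inv (XF R F₀) (measurableSet_XF R F₀)
        (t.g v * (a k i : FG r)) (XF_conj R hR F₀ hF₀n _) (Phi D φ) hmPhi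
      simp only [conjX_mul] at e1
      exact e1
    show ∫ x in XF R F₀, (∑ v : V, (∑ i : Fin (K k),
      Phi D φ (conjX (t.g v) (conjX (a k i : FG r) x))) / K k) / Fintype.card V ∂μ = _
    rw [integral_div, integral_finsetSum]
    · have e2 : ∀ v : V, ∫ x in XF R F₀, (∑ i : Fin (K k),
          Phi D φ (conjX (t.g v) (conjX (a k i : FG r) x))) / K k ∂μ =
            ∫ x in XF R F₀, Phi D φ x ∂μ := by
        intro v
        rw [integral_div, integral_finsetSum _ fun i _ => hint v i]
        rw [Finset.sum_congr rfl fun i _ => hval v i, Finset.sum_const, Finset.card_univ,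
          Fintype.card_fin, nsmul_eq_mul]
        field_simp [(hKpos' k).ne']
      rw [Finset.sum_congr rfl fun v _ => e2 v, Finset.sum_const, Finset.card_univ, nsmul_eq_mul]
      field_simp
    · intro v _
      exact (integrable_finsetSum _ fun i _ => hint v i).div_const _
  refine le_of_eventually μ (XF R F₀) (measurableSet_XF R F₀) Ψ hmΨ _ hbΨ _ hIΨ _ ?_
  have hfi := h1 r R (NN R m) hR (NN_normal R hR m) hc (NN_le R hR m) le_sup_left μ hμ
  filter_upwards [hμ.sub, hfi] with x hx hfin hxS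
  obtain ⟨H, hNH, hxH⟩ := hx
  have hHF : H ⊔ R = F₀ := (mem_XF_iff R hR F₀ H x hxH).1 hxS
  have horb : MulAction.orbit R x = {y | ∃ a ∈ R, y = conjX a x} := by
    ext y
    constructor
    · rintro ⟨g, rfl⟩
      exact ⟨g, g.2, rfl⟩
    · rintro ⟨g, hg, rfl⟩
      exact ⟨⟨g, hg⟩, rfl⟩
  have hfo : (MulAction.orbit R x).Finite := by
    rw [horb]
    exact hfin
  have hcomm : ∀ g h : R, (g * h) • x = (h * g) • x := by
    intro g h
    show conjX ((g * h : R) : FG r) x = conjX ((h * g : R) : FG r) x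
    funext w
    rw [Bool.eq_iff_iff]
    unfold conjX
    rw [hxH, hxH]
    set gg : FG r := (g : FG r)
    set hh : FG r := (h : FG r)
    have hk : hh⁻¹ * gg⁻¹ * hh * gg ∈ H := by
      apply hNH
      apply (le_sup_left : ⁅R, R⁆ ≤ NN R m)
      have := Subgroup.commutator_mem_commutator (H₁ := R) (H₂ := R) (R.inv_mem h.2)
        (R.inv_mem g.2)
      rw [commutatorElement_def] at this
      simpa using this
    have e1 : ((h * g : R) : FG r) = hh * gg := rfl
    have e2 : ((g * h : R) : FG r) = gg * hh := rfl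
    rw [e1, e2]
    constructor
    · intro hw
      have := H.mul_mem (H.mul_mem (H.inv_mem hk) hw) hk
      have e3 : (hh⁻¹ * gg⁻¹ * hh * gg)⁻¹ * ((gg * hh)⁻¹ * w * (gg * hh)) *
          (hh⁻¹ * gg⁻¹ * hh * gg) = (hh * gg)⁻¹ * w * (hh * gg) := by group
      rwa [e3] at this
    · intro hw
      have := H.mul_mem (H.mul_mem hk hw) (H.inv_mem hk)
      have e3 : (hh⁻¹ * gg⁻¹ * hh * gg) * ((hh * gg)⁻¹ * w * (hh * gg)) *
          (hh⁻¹ * gg⁻¹ * hh * gg)⁻¹ = (gg * hh)⁻¹ * w * (gg * hh) := by group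
      rwa [e3] at this
  obtain ⟨k₀, hk₀⟩ := ha (XX r) x hfo hcomm
  refine ⟨k₀, fun k hk => ?_⟩
  have hpt := pointwise h3 m R hR hc D φ u hφ H F₀ hNH hHF x hxH hfo.toFinset (by
    intro y
    rw [Set.Finite.mem_toFinset, horb]
    rfl) V t ε ht
  have hcard : (0 : ℝ) < hfo.toFinset.card := by
    have : hfo.toFinset.Nonempty := ⟨x, by
      rw [Set.Finite.mem_toFinset]
      exact MulAction.mem_orbit_self x⟩
    exact_mod_cast this.card_pos
  have e4 : ∀ v : V, (∑ i : Fin (K k), Phi D φ (conjX (t.g v) (conjX (a k i : FG r) x))) / K k =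
      (∑ z ∈ hfo.toFinset, Phi D φ (conjX (t.g v) z)) / hfo.toFinset.card := fun v =>
    hk₀ k hk (fun z => Phi D φ (conjX (t.g v) z))
  show (∑ v : V, (∑ i : Fin (K k), Phi D φ (conjX (t.g v) (conjX (a k i : FG r) x))) / K k) /
      Fintype.card V ≤ _
  rw [Finset.sum_congr rfl fun v _ => e4 v, ← Finset.sum_div, div_div,
    div_le_iff₀ (mul_pos hcard hVpos)]
  calc _ ≤ _ := hpt
    _ = _ := by ring

/-- **INT**: every invariant random subgroup of `F/N` is co-sofic. -/
theorem INT (h1 : T_FI) (h2 : T_TILE) (h3 : T_LOC) (h4 : T_EQD) : T_APPR := by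
  intro r m R hR hc μ hμ D δ hδ
  by_contra hno
  obtain ⟨φ, u, hφ, hu⟩ := exists_sep (NN R m) D μ δ hδ hno
  have := hμ.prob
  set L := ∑ P, φ P * μ.real (cyl D P) with hL
  set C := ∑ P, |φ P| with hC
  have hC0 : 0 ≤ C := Finset.sum_nonneg fun P _ => abs_nonneg _
  obtain ⟨ε, hε, hε2⟩ : ∃ ε : ℝ, 0 < ε ∧ u + 2 * C * ε < L := by
    refine ⟨(L - u) / (2 * C + 1), div_pos (by linarith) (by linarith), ?_⟩
    have h5 : 2 * C * ((L - u) / (2 * C + 1)) < L - u := by
      rw [mul_div_assoc', div_lt_iff₀ (by linarith)]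
      nlinarith
    linarith
  set c' := u + 2 * C * ε with hc'
  have hpiece : ∀ F₀ : {F₀ : Subgroup (FG r) // R ≤ F₀},
      ∫ x in XF R F₀, (Phi D φ x - c') ∂μ ≤ 0 := by
    intro F₀
    have h5 := piece h1 h2 h3 h4 m R hR hc μ hμ D φ u hφ F₀ F₀.2 ε hε
    have hint : Integrable (Phi D φ) (μ.restrict (XF R F₀)) :=
      Integrable.of_bound (measurable_Phi D φ).aestronglyMeasurable C
        (ae_of_all _ fun x => by rw [Real.norm_eq_abs]; exact Phi_abs_le D φ _)
    rw [integral_sub hint (integrable_const _), integral_const]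
    have h6 : (μ.restrict (XF R F₀)).real Set.univ = μ.real (XF R F₀) := by
      simp [Measure.real]
    rw [h6, smul_eq_mul]
    linarith
  have hcount := countable_over R hR hc
  have hintall : Integrable (fun x => Phi D φ x - c') μ :=
    (Integrable.of_bound (measurable_Phi D φ).aestronglyMeasurable C
        (ae_of_all _ fun x => by rw [Real.norm_eq_abs]; exact Phi_abs_le D φ _)).sub
      (integrable_const _)
  have hdisj : Pairwise (Function.onFun Disjoint
      (fun F₀ : {F₀ : Subgroup (FG r) // R ≤ F₀} => XF R (F₀ : Subgroup (FG r)))) := by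
    intro F₁ F₂ hne
    rw [Function.onFun, Set.disjoint_left]
    intro x hx1 hx2
    apply hne
    apply Subtype.ext
    ext w
    rw [hx1 w, hx2 w]
  have hU := integral_iUnion (μ := μ) (f := fun x => Phi D φ x - c')
    (fun F₀ : {F₀ : Subgroup (FG r) // R ≤ F₀} => measurableSet_XF R (F₀ : Subgroup (FG r)))
    hdisj hintall.integrableOn
  have hfull : μ.restrict (⋃ F₀ : {F₀ : Subgroup (FG r) // R ≤ F₀},
      XF R (F₀ : Subgroup (FG r))) = μ := by
    apply Measure.restrict_eq_self_of_ae_mem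
    filter_upwards [hμ.sub] with x hx
    obtain ⟨H, hNH, hxH⟩ := hx
    rw [Set.mem_iUnion]
    exact ⟨⟨H ⊔ R, le_sup_right⟩, (mem_XF_iff R hR _ H x hxH).2 rfl⟩
  rw [hfull] at hU
  have h7 : ∫ x, (Phi D φ x - c') ∂μ ≤ 0 := by
    rw [hU]
    exact tsum_nonpos hpiece
  have hPhiInt : Integrable (Phi D φ) μ :=
    Integrable.of_bound (measurable_Phi D φ).aestronglyMeasurable C
        (ae_of_all _ fun x => by rw [Real.norm_eq_abs]; exact Phi_abs_le D φ _)
  rw [integral_sub hPhiInt (integrable_const _), integral_const] at h7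
  have h8 : ∫ x, Phi D φ x ∂μ = L := by
    unfold Phi
    rw [integral_finsetSum]
    · refine Finset.sum_congr rfl fun P _ => ?_
      rw [integral_const_mul]
      congr 1
      have h9 : (fun x : XX r => ind01 (x ∈ cyl D (P : Finset (FG r)))) =
          (cyl D (P : Finset (FG r))).indicator (fun _ => (1 : ℝ)) := by
        classical
        funext x
        unfold ind01
        rw [Set.indicator_apply]
      rw [h9, integral_indicator (measurableSet_cyl D _), integral_const]
      simp [Measure.real]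
    · intro P _
      refine Integrable.const_mul ?_ _
      exact Integrable.of_bound (measurable_ind01 (measurableSet_cyl D _)).aestronglyMeasurable 1
        (ae_of_all _ fun x => by
          rw [Real.norm_eq_abs, abs_of_nonneg (ind01_nonneg _)]
          exact ind01_le_one _)
  rw [h8] at h7
  simp at h7
  linarith

end int

end Pool.Agent.H10.PS
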