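import Pool.Agent.H10.PS.Targets

set_option autoImplicit false

/-!
# MP_b95bd9_al, module EQD: equidistributing multisets of a countable group
-/

namespace Pool.Agent.H10.PS

section eqd

variable {Γ : Type} [Group Γ]

/-- The list of all products `e₀^{s₀} ⋯ e_{i-1}^{s_{i-1}}` with exponents below `N`. -/
def LL (e : ℕ → Γ) (N : ℕ) : ℕ → List Γ
  | 0 => [1]
  | i + 1 => (LL e N i).flatMap (fun a => (List.range N).map (fun s => a * e i ^ s))

lemma LL_length (e : ℕ → Γ) (N i : ℕ) : (LL e N i).length = N ^ i := by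
  induction i with
  | zero => simp [LL]
  | succ i ih =>
    rw [LL, List.length_flatMap]
    simp [ih, pow_succ]

variable {Y : Type} [MulAction Γ Y]

/-- Sum over a list. -/
def SS (L : List Γ) (f : Y → ℝ) (z : Y) : ℝ := (L.map (fun a => f (a • z))).sum

omit [Group Γ] in
lemma sum_range_list (F : ℕ → ℝ) (N : ℕ) :
    ((List.range N).map F).sum = ∑ s ∈ Finset.range N, F s := by
  induction N with
  | zero => simp
  | succ N ihN =>
    rw [List.range_succ, List.map_append, List.sum_append, Finset.sum_range_succ, ihN]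
    simp

lemma sum_flat (L : List Γ) (g : Γ) (N : ℕ) (F : Γ → ℝ) :
    ((L.flatMap (fun a => (List.range N).map (fun s => a * g ^ s))).map F).sum =
      ∑ s ∈ Finset.range N, (L.map (fun a => F (a * g ^ s))).sum := by
  induction L with
  | nil => simp
  | cons a L ih =>
    rw [List.flatMap_cons, List.map_append, List.sum_append, ih]
    simp only [List.map_cons, List.sum_cons, Finset.sum_add_distrib]
    congr 1
    rw [List.map_map]
    exact sum_range_list _ N

lemma SS_succ (e : ℕ → Γ) (N i : ℕ) (f : Y → ℝ) (z : Y) :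
    SS (LL e N (i + 1)) f z = ∑ s ∈ Finset.range N, SS (LL e N i) f (e i ^ s • z) := by
  unfold SS
  rw [LL, sum_flat (LL e N i) (e i) N (fun a => f (a • z))]
  simp only [mul_smul]

/-- invariance -/
lemma SS_inv (e : ℕ → Γ) (N : ℕ) (O : Set Y) (hO : ∀ g : Γ, ∀ z ∈ O, g • z ∈ O)
    (hc : ∀ g h : Γ, ∀ z ∈ O, g • h • z = h • g • z) (hN : ∀ g : Γ, ∀ z ∈ O, g ^ N • z = z)
    (f : Y → ℝ) (i : ℕ) : ∀ j < i, ∀ z ∈ O, SS (LL e N i) f (e j • z) = SS (LL e N i) f z := by
  induction i with
  | zero => intro j hj; omega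
  | succ i ih =>
    intro j hj z hz
    rw [SS_succ, SS_succ]
    rcases Nat.lt_succ_iff_lt_or_eq.1 hj with h | rfl
    · refine Finset.sum_congr rfl fun s _ => ?_
      rw [hc _ _ z hz, ih j h _ (hO _ _ hz)]
    · have h1 : ∀ s, e j ^ s • e j • z = e j ^ (s + 1) • z := by
        intro s
        rw [pow_succ, mul_smul]
      simp only [h1]
      have h2 := Finset.sum_range_succ (fun s => SS (LL e N j) f (e j ^ s • z)) N
      have h3 := Finset.sum_range_succ' (fun s => SS (LL e N j) f (e j ^ s • z)) N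
      rw [h2] at h3
      simp only [pow_zero, one_smul] at h3
      rw [hN (e j) z hz] at h3
      linarith

lemma SS_sum (L : List Γ) (f : Y → ℝ) (O : Finset Y) (hO : ∀ g : Γ, ∀ z ∈ O, g • z ∈ O) :
    ∑ z ∈ O, SS L f z = L.length * ∑ z ∈ O, f z := by
  induction L with
  | nil => simp [SS]
  | cons a L ih =>
    have h1 : ∀ z, SS (a :: L) f z = f (a • z) + SS L f z := by
      intro z
      simp [SS]
    simp only [h1, Finset.sum_add_distrib, ih]
    have h2 : ∑ z ∈ O, f (a • z) = ∑ z ∈ O, f z := by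
      refine Finset.sum_nbij' (fun z => a • z) (fun z => a⁻¹ • z) (hO a) (hO a⁻¹) ?_ ?_ ?_
      · intro z _; simp
      · intro z _; simp
      · intro z _; rfl
    rw [h2]
    push_cast [List.length_cons]
    ring

end eqd

/-- **EQD.** -/
theorem EQD : T_EQD := by
  intro Γ _ _
  obtain ⟨e, he⟩ := exists_surjective_nat Γ
  have hlen : ∀ k, (LL e k.factorial k).length = k.factorial ^ k := fun k => LL_length e _ _
  refine ⟨fun k => (LL e k.factorial k).length, fun k i => (LL e k.factorial k).get i,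
    fun k => ?_, ?_⟩
  · show 0 < (LL e k.factorial k).length
    rw [hlen]
    exact pow_pos (Nat.factorial_pos k) k
  intro Y _ y hf hcomm
  -- commutativity on the orbit
  have hc : ∀ g h : Γ, ∀ z ∈ MulAction.orbit Γ y, g • h • z = h • g • z := by
    rintro g h _ ⟨u, rfl⟩
    show g • h • u • y = h • g • u • y
    rw [smul_smul h u, smul_smul g, smul_smul g u, smul_smul h]
    rw [← mul_assoc, ← mul_assoc, hcomm (g * h) u, hcomm (h * g) u, mul_smul, mul_smul u,
      hcomm g h]
  have hO : ∀ g : Γ, ∀ z ∈ MulAction.orbit Γ y, g • z ∈ MulAction.orbit Γ y := by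
    rintro g _ ⟨u, rfl⟩
    exact ⟨g * u, mul_smul g u y⟩
  -- index
  have hidx : (MulAction.stabilizer Γ y).index ≠ 0 := by
    have := hf.to_subtype
    rw [MulAction.index_stabilizer]
    intro h
    rw [Set.ncard_eq_zero hf] at h
    have : y ∈ MulAction.orbit Γ y := MulAction.mem_orbit_self y
    rw [h] at this
    exact this
  have hper : ∀ k, (MulAction.stabilizer Γ y).index ≤ k → ∀ g : Γ, ∀ z ∈ MulAction.orbit Γ y,
      g ^ k.factorial • z = z := by
    intro k hk g z hz
    obtain ⟨u, rfl⟩ := hz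
    have h1 : g ^ k.factorial ∈ MulAction.stabilizer Γ y := by
      refine Subgroup.pow_mem_of_index_ne_zero_of_dvd hidx g (fun m hm hmk => ?_)
      exact Nat.dvd_factorial hm (hmk.trans hk)
    rw [MulAction.mem_stabilizer_iff] at h1
    show g ^ k.factorial • u • y = u • y
    rw [hc _ u y (MulAction.mem_orbit_self y), h1]
  -- indices of the points of the orbit
  choose idx hidx2 using he
  have hexg : ∀ z ∈ hf.toFinset, ∃ g : Γ, g • y = z := by
    intro z hz
    rw [Set.Finite.mem_toFinset] at hz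
    exact hz
  choose! gg hgg using hexg
  obtain ⟨k₁, hk₁⟩ : ∃ k₁, ∀ z ∈ hf.toFinset, idx (gg z) < k₁ := by
    refine ⟨(hf.toFinset.sup fun z => idx (gg z)) + 1, fun z hz => ?_⟩
    exact Nat.lt_succ_of_le (Finset.le_sup (f := fun z => idx (gg z)) hz)
  refine ⟨max k₁ (MulAction.stabilizer Γ y).index, fun k hk ψ => ?_⟩
  have hkk1 : k₁ ≤ k := (le_max_left _ _).trans hk
  have hkk2 : (MulAction.stabilizer Γ y).index ≤ k := (le_max_right _ _).trans hk
  have hinv := SS_inv e k.factorial (MulAction.orbit Γ y) hO hc (hper k hkk2) ψ k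
  have hsum := SS_sum (LL e k.factorial k) ψ hf.toFinset (by
    intro g z hz
    rw [Set.Finite.mem_toFinset] at hz ⊢
    exact hO g z hz)
  have hconst : ∀ z ∈ hf.toFinset, SS (LL e k.factorial k) ψ z = SS (LL e k.factorial k) ψ y := by
    intro z hz
    have h1 := hinv (idx (gg z)) ((hk₁ z hz).trans_le hkk1) y (MulAction.mem_orbit_self y)
    rw [hidx2, hgg z hz] at h1
    exact h1
  rw [Finset.sum_congr rfl hconst, Finset.sum_const, nsmul_eq_mul] at hsum
  have hcard : (hf.toFinset.card : ℝ) ≠ 0 := by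
    have : hf.toFinset.Nonempty := ⟨y, by
      rw [Set.Finite.mem_toFinset]
      exact MulAction.mem_orbit_self y⟩
    exact_mod_cast this.card_pos.ne'
  have hlen' : ((LL e k.factorial k).length : ℝ) ≠ 0 := by
    rw [hlen]
    exact_mod_cast (pow_pos (Nat.factorial_pos k) k).ne'
  have hS : ∑ i, ψ ((LL e k.factorial k).get i • y) = SS (LL e k.factorial k) ψ y := by
    unfold SS
    rw [← List.sum_ofFn]
    congr 1
    apply List.ext_get
    · simp
    · intro n h1 h2
      simp
  rw [div_eq_div_iff hlen' hcard, hS]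
  linarith

end Pool.Agent.H10.PS
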