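import Pool.Agent.H10.PS.Targets

set_option autoImplicit false

/-!
# MP_b95bd9_al, module INT, part 1: algebra
-/

open MeasureTheory Filter Topology
open scoped commutatorElement

namespace Pool.Agent.H10.PS

section alg

variable {r : ℕ}

lemma NN_le (R : Subgroup (FG r)) (hR : R.Normal) (m : ℕ) : NN R m ≤ R := by
  unfold NN
  refine sup_le (Subgroup.commutator_le_left R R) ?_
  rw [Subgroup.closure_le]
  rintro w ⟨a, ha, rfl⟩
  exact R.pow_mem ha m

lemma NN_normal (R : Subgroup (FG r)) (hR : R.Normal) (m : ℕ) : (NN R m).Normal := by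
  unfold NN
  have h1 : (⁅R, R⁆ : Subgroup (FG r)).Normal := inferInstance
  have h2 : (Subgroup.closure {w | ∃ a ∈ R, w = a ^ m} : Subgroup (FG r)).Normal := by
    constructor
    intro n hn g
    induction hn using Subgroup.closure_induction with
    | mem x hx =>
      obtain ⟨a, ha, rfl⟩ := hx
      refine Subgroup.subset_closure ⟨g * a * g⁻¹, hR.conj_mem a ha g, ?_⟩
      rw [conj_pow]
    | one => simp
    | mul x y _ _ hx hy =>
      have : g * (x * y) * g⁻¹ = (g * x * g⁻¹) * (g * y * g⁻¹) := by group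
      rw [this]
      exact Subgroup.mul_mem _ hx hy
    | inv x _ hx =>
      have : g * x⁻¹ * g⁻¹ = (g * x * g⁻¹)⁻¹ := by group
      rw [this]
      exact Subgroup.inv_mem _ hx
  exact Subgroup.sup_normal _ _

lemma normal_of_commutator_le {G : Type} [Group G] (F₀ : Subgroup G) (h : commutator G ≤ F₀) :
    F₀.Normal := by
  constructor
  intro n hn g
  have h1 : g * n * g⁻¹ * n⁻¹ ∈ F₀ := by
    apply h
    rw [commutator_def]
    exact Subgroup.commutator_mem_commutator (Subgroup.mem_top g) (Subgroup.mem_top n)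
  have h2 : g * n * g⁻¹ = (g * n * g⁻¹ * n⁻¹) * n := by group
  rw [h2]
  exact F₀.mul_mem h1 hn

/-- The subgroups between `R` and `F` are finitely generated over `R`. -/
lemma exists_finset_sup (R : Subgroup (FG r)) (hR : R.Normal) (hc : commutator (FG r) ≤ R)
    (F₀ : Subgroup (FG r)) (h0 : R ≤ F₀) :
    ∃ S : Finset (FG r), R ⊔ Subgroup.closure (S : Set (FG r)) = F₀ := by
  classical
  let _ : CommGroup (FG r ⧸ R) :=
    { (inferInstance : Group (FG r ⧸ R)) with
      mul_comm := by
        intro a b
        induction a using QuotientGroup.induction_on with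
        | H a =>
          induction b using QuotientGroup.induction_on with
          | H b =>
            rw [← QuotientGroup.mk_mul, ← QuotientGroup.mk_mul, QuotientGroup.eq]
            apply hc
            have h1 : (a * b)⁻¹ * (b * a) = ⁅b⁻¹, a⁻¹⁆ := by
              rw [commutatorElement_def]
              group
            rw [h1, commutator_def]
            exact Subgroup.commutator_mem_commutator (Subgroup.mem_top _) (Subgroup.mem_top _) }
  have hfg : Group.FG (FG r ⧸ R) := inferInstance
  have h1 : AddGroup.FG (Additive (FG r ⧸ R)) := inferInstance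
  have h2 : Module.Finite ℤ (Additive (FG r ⧸ R)) := Module.Finite.iff_addGroup_fg.2 h1
  have h3 : IsNoetherian ℤ (Additive (FG r ⧸ R)) := inferInstance
  set Q : Subgroup (FG r ⧸ R) := F₀.map (QuotientGroup.mk' R) with hQ
  have h4 : (AddSubgroup.toIntSubmodule (Subgroup.toAddSubgroup Q)).FG := h3.noetherian _
  have h5 : (Subgroup.toAddSubgroup Q).FG := by
    rw [Submodule.fg_iff_addSubgroup_fg] at h4
    simpa using h4
  have h6 : Q.FG := by
    rw [Subgroup.fg_iff_add_fg]
    exact h5
  obtain ⟨T, hT⟩ := h6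
  -- lift the generators
  choose! lift hlift using fun q : FG r ⧸ R => QuotientGroup.mk'_surjective R q
  refine ⟨T.image lift, ?_⟩
  apply le_antisymm
  · refine sup_le h0 ?_
    rw [Subgroup.closure_le]
    intro x hx
    simp only [Finset.coe_image, Set.mem_image] at hx
    obtain ⟨t, ht, rfl⟩ := hx
    have h7 : t ∈ Q := by
      rw [← hT]
      exact Subgroup.subset_closure ht
    obtain ⟨y, hy, hyt⟩ := h7
    have h8 : QuotientGroup.mk' R (lift t) = QuotientGroup.mk' R y := by rw [hlift, hyt]
    have h9 : (y)⁻¹ * lift t ∈ R := by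
      have := (QuotientGroup.eq (s := R) (a := y) (b := lift t)).1 h8.symm
      exact this
    have h10 : lift t = y * (y⁻¹ * lift t) := by group
    rw [h10]
    exact F₀.mul_mem hy (h0 h9)
  · intro x hx
    have h7 : QuotientGroup.mk' R x ∈ Q := ⟨x, hx, rfl⟩
    rw [← hT] at h7
    have h8 : (T : Set (FG r ⧸ R)) ⊆
        (Subgroup.map (QuotientGroup.mk' R) (Subgroup.closure (T.image lift : Set (FG r))) :
          Set (FG r ⧸ R)) := by
      intro t ht
      refine ⟨lift t, Subgroup.subset_closure ?_, hlift t⟩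
      simp only [Finset.coe_image, Set.mem_image]
      exact ⟨t, ht, rfl⟩
    rw [← Subgroup.closure_le] at h8
    obtain ⟨y, hy, hyx⟩ := h8 h7
    have h9 : y⁻¹ * x ∈ R := (QuotientGroup.eq (s := R) (a := y) (b := x)).1 hyx
    have h10 : x = y * (y⁻¹ * x) := by group
    rw [h10]
    refine Subgroup.mul_mem _ ?_ ?_
    · have : Subgroup.closure ((T.image lift : Finset (FG r)) : Set (FG r)) ≤
          R ⊔ Subgroup.closure ((T.image lift : Finset (FG r)) : Set (FG r)) := le_sup_right
      exact this hy
    · exact (le_sup_left : R ≤ _) h9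

lemma countable_over (R : Subgroup (FG r)) (hR : R.Normal) (hc : commutator (FG r) ≤ R) :
    Countable {F₀ : Subgroup (FG r) // R ≤ F₀} := by
  have : Function.Surjective (fun S : Finset (FG r) =>
      (⟨R ⊔ Subgroup.closure (S : Set (FG r)), le_sup_left⟩ :
        {F₀ : Subgroup (FG r) // R ≤ F₀})) := by
    rintro ⟨F₀, h0⟩
    obtain ⟨S, hS⟩ := exists_finset_sup R hR hc F₀ h0
    exact ⟨S, Subtype.ext hS⟩
  exact this.countable

/-! ### conjugation -/

lemma conjX_mul (g h : FG r) (x : XX r) : conjX (g * h) x = conjX g (conjX h x) := by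
  funext w
  unfold conjX
  congr 1
  group

lemma conjX_one (x : XX r) : conjX 1 x = x := by
  funext w
  unfold conjX
  congr 1
  group

/-- the action of `R` by conjugation -/
@[reducible] def conjAct (R : Subgroup (FG r)) : MulAction R (XX r) where
  smul g x := conjX (g : FG r) x
  one_smul x := conjX_one x
  mul_smul g h x := conjX_mul (g : FG r) h x

/-- The set of (indicators of) the subgroups `H` with `H ⊔ R = F₀`. -/
def XF (R F₀ : Subgroup (FG r)) : Set (XX r) :=
  {x | ∀ w, (w ∈ F₀ ↔ ∃ h, x h = true ∧ h⁻¹ * w ∈ R)}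

lemma mem_XF_iff (R : Subgroup (FG r)) (hR : R.Normal) (F₀ H : Subgroup (FG r)) (x : XX r)
    (hx : ∀ w, x w = true ↔ w ∈ H) : x ∈ XF R F₀ ↔ H ⊔ R = F₀ := by
  have h1 : ∀ w, (∃ h, x h = true ∧ h⁻¹ * w ∈ R) ↔ w ∈ H ⊔ R := by
    intro w
    rw [Subgroup.mem_sup_of_normal_right]
    constructor
    · rintro ⟨h, hh, hw⟩
      exact ⟨h, (hx h).1 hh, h⁻¹ * w, hw, by group⟩
    · rintro ⟨h, hh, z, hz, rfl⟩
      exact ⟨h, (hx h).2 hh, by simpa using hz⟩
  constructor
  · intro h
    ext w
    rw [← h1 w]
    exact (h w).symm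
  · rintro rfl w
    exact (h1 w).symm

lemma XF_conj (R : Subgroup (FG r)) (hR : R.Normal) (F₀ : Subgroup (FG r)) (h0 : F₀.Normal)
    (g : FG r) : conjX g ⁻¹' XF R F₀ = XF R F₀ := by
  have key : ∀ (g : FG r) (x : XX r), x ∈ XF R F₀ → conjX g x ∈ XF R F₀ := by
    intro g x hx w
    have h1 := hx (g⁻¹ * w * g)
    have h2 : w ∈ F₀ ↔ g⁻¹ * w * g ∈ F₀ := by
      constructor
      · intro h
        have := h0.conj_mem w h g⁻¹
        simpa using this
      · intro h
        have := h0.conj_mem _ h g
        have h3 : g * (g⁻¹ * w * g) * g⁻¹ = w := by group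
        rwa [h3] at this
    rw [h2, h1]
    constructor
    · rintro ⟨h, hh, hr⟩
      refine ⟨g * h * g⁻¹, ?_, ?_⟩
      · unfold conjX
        have : g⁻¹ * (g * h * g⁻¹) * g = h := by group
        rw [this]
        exact hh
      · have := hR.conj_mem _ hr g
        have h3 : g * (h⁻¹ * (g⁻¹ * w * g)) * g⁻¹ = (g * h * g⁻¹)⁻¹ * w := by group
        rwa [h3] at this
    · rintro ⟨h, hh, hr⟩
      refine ⟨g⁻¹ * h * g, hh, ?_⟩
      have := hR.conj_mem _ hr g⁻¹
      have h3 : g⁻¹ * (h⁻¹ * w) * g⁻¹⁻¹ = (g⁻¹ * h * g)⁻¹ * (g⁻¹ * w * g) := by group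
      rwa [h3] at this
  ext x
  constructor
  · intro h
    have := key g⁻¹ _ h
    rwa [← conjX_mul, inv_mul_cancel, conjX_one] at this
  · intro h
    exact key g x h

lemma measurable_conjX (g : FG r) : Measurable (conjX g : XX r → XX r) := by
  unfold conjX
  exact measurable_pi_iff.2 fun w => measurable_pi_apply _

lemma measurableSet_coord (w : FG r) : MeasurableSet {x : XX r | x w = true} :=
  measurableSet_eq_fun (measurable_pi_apply w) measurable_const

lemma measurableSet_XF (R F₀ : Subgroup (FG r)) : MeasurableSet (XF R F₀) := by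
  unfold XF
  rw [Set.ofPred_forall]
  refine MeasurableSet.iInter fun w => ?_
  refine MeasurableSet.iff (MeasurableSet.const _) ?_
  rw [Set.ofPred_exists]
  refine MeasurableSet.iUnion fun h => ?_
  exact (measurableSet_coord h).inter (MeasurableSet.const _)

lemma measurableSet_cyl (D P : Finset (FG r)) : MeasurableSet (cyl D P) := by
  unfold cyl
  rw [Set.ofPred_forall]
  refine MeasurableSet.iInter fun w => ?_
  rw [Set.ofPred_forall]
  refine MeasurableSet.iInter fun _ => ?_
  exact MeasurableSet.iff (measurableSet_coord w) (MeasurableSet.const _)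

end alg

end Pool.Agent.H10.PS
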